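import Pool.Agent.Lib.MP_715eb0_an.AW.Spec
import Pool.Agent.Lib.MP_715eb0_an.AS.MES

/-!
# Module AVM of `AW/Spec.lean` (MP_715eb0_an): the bound for the measures
-/

set_option autoImplicit false

open MeasureTheory
open Pool.Agent.Lib.MP_715eb0_an.NC

namespace Pool.Agent.Lib.MP_715eb0_an.AW

open AS.MESM in
theorem specAVM (hPTW : SpecPTW) : SpecAVM := by
  classical
  intro ε K hε
  obtain ⟨C, Λ₀, h1, hc⟩ := hPTW ε K hε
  refine ⟨C, Λ₀, h1, fun Λ hΛ y => ?_⟩
  obtain ⟨t, ht1, ht2, ht3, ht4⟩ := hc Λ hΛ y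
  refine ⟨t, ht1, ht2, ht3, ht4, fun μ hμ h2 h3 => ?_⟩
  set A : Set T := Metric.closedBall y (1 / Λ) \ Metric.closedBall t (Λ ^ K)⁻¹ with hAdef
  have hA : MeasurableSet A :=
    Metric.isClosed_closedBall.measurableSet.diff Metric.isClosed_closedBall.measurableSet
  set n : ℕ := ⌈(C : ℝ) * Real.log Λ⌉₊ + 1 with hn
  have hnC : (C : ℝ) * Real.log Λ ≤ n := by
    refine (Nat.le_ceil _).trans ?_
    rw [hn]
    push_cast
    linarith
  set W : Finset (ℕ × ℕ) := Finset.range n ×ˢ Finset.range n with hW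
  have hWc : W.card = n * n := by
    rw [hW, Finset.card_product, Finset.card_range]
  have hpre : ∀ p : ℕ × ℕ, MeasurableSet ((fun z : T => V p • z) ⁻¹' A) :=
    fun p => meas_nsmul _ hA
  have hinv : ∀ p : ℕ × ℕ, μ ((fun z : T => V p • z) ⁻¹' A) = μ A := by
    intro p
    rw [← Measure.map_apply (meas_nsmul _) hA, map_V h2 h3]
  have hpt : ∀ z : T, ∑ p ∈ W, ((fun z : T => V p • z) ⁻¹' A).indicator
      (1 : T → ENNReal) z ≤ ENNReal.ofReal (ε * (n : ℝ) ^ 2) := by
    intro z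
    have e1 : ∑ p ∈ W, ((fun z : T => V p • z) ⁻¹' A).indicator (1 : T → ENNReal) z =
        ((W.filter fun p => V p • z ∈ A).card : ENNReal) := by
      rw [Finset.card_filter, Nat.cast_sum]
      apply Finset.sum_congr rfl
      intro p _
      rw [Set.indicator_apply]
      simp only [Set.mem_preimage, Pi.one_apply]
      split_ifs <;> simp
    have h4 := ht4 z n hnC
    have hsub : ((W.filter fun p => V p • z ∈ A : Finset (ℕ × ℕ)) : Set (ℕ × ℕ)) ⊆
        {p : ℕ × ℕ | p.1 < n ∧ p.2 < n ∧ (2 ^ p.1 * 3 ^ p.2) • z ∈ A} := by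
      intro p hp
      rw [Finset.mem_coe, Finset.mem_filter, hW, Finset.mem_product, Finset.mem_range,
        Finset.mem_range] at hp
      exact ⟨hp.1.1, hp.1.2, hp.2⟩
    have hfin : ({p : ℕ × ℕ | p.1 < n ∧ p.2 < n ∧ (2 ^ p.1 * 3 ^ p.2) • z ∈ A}).Finite := by
      refine (W.finite_toSet).subset ?_
      intro p hp
      rw [Finset.mem_coe, hW, Finset.mem_product, Finset.mem_range, Finset.mem_range]
      exact ⟨hp.1, hp.2.1⟩
    have h5 := Set.ncard_le_ncard hsub hfin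
    rw [Set.ncard_coe_finset] at h5
    rw [e1, ← ENNReal.ofReal_natCast]
    exact ENNReal.ofReal_le_ofReal ((Nat.cast_le.2 h5).trans h4)
  have hsum : ∑ p ∈ W, μ ((fun z : T => V p • z) ⁻¹' A) ≤ ENNReal.ofReal (ε * (n : ℝ) ^ 2) := by
    calc ∑ p ∈ W, μ ((fun z : T => V p • z) ⁻¹' A)
        = ∑ p ∈ W, ∫⁻ z, ((fun z : T => V p • z) ⁻¹' A).indicator (1 : T → ENNReal) z ∂μ := by
          apply Finset.sum_congr rfl
          intro p _
          rw [lintegral_indicator_one (hpre p)]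
      _ = ∫⁻ z, ∑ p ∈ W, ((fun z : T => V p • z) ⁻¹' A).indicator (1 : T → ENNReal) z ∂μ := by
          rw [lintegral_finsetSum]
          intro p _
          exact measurable_one.indicator (hpre p)
      _ ≤ ∫⁻ _, ENNReal.ofReal (ε * (n : ℝ) ^ 2) ∂μ := lintegral_mono hpt
      _ = ENNReal.ofReal (ε * (n : ℝ) ^ 2) := by simp
  rw [Finset.sum_congr rfl (fun p _ => hinv p), Finset.sum_const, hWc, nsmul_eq_mul,
    mul_comm ε, ENNReal.ofReal_mul (by positivity)] at hsum
  have hn0 : (0 : ℝ) < n := by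
    rw [hn]
    positivity
  have e2 : (((n * n : ℕ)) : ENNReal) = ENNReal.ofReal ((n : ℝ) ^ 2) := by
    rw [← ENNReal.ofReal_natCast]
    congr 1
    push_cast
    ring
  rw [e2] at hsum
  refine (ENNReal.mul_le_mul_iff_right ?_ ENNReal.ofReal_ne_top).1 hsum
  rw [Ne, ENNReal.ofReal_eq_zero, not_le]
  positivity

end Pool.Agent.Lib.MP_715eb0_an.AW
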