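import Pool.Agent.Lib.MP_715eb0_an.AW.Spec
import Pool.Agent.Lib.MP_715eb0_an.AS.FNL
import Pool.Agent.Lib.MP_715eb0_an.AS.MES

/-!
# MP_715eb0, AW, module PTW: the theorem for every point
-/

set_option autoImplicit false

open MeasureTheory
open Pool.Agent.Lib.MP_715eb0_an.NC

namespace Pool.Agent.Lib.MP_715eb0_an.AW

namespace PTWM

open Pool.Agent.Lib.MP_715eb0_an.AS

/-- the choice of the point of small order -/
theorem choice {K : ℕ} {Λ : ℝ} (hΛ17 : 17 ≤ Λ) (y : T) : ∃ t : T, 0 < addOrderOf t ∧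
    (addOrderOf t : ℝ) ≤ Λ ^ (1 / 4 : ℝ) ∧
    (0 < addOrderOf y → (addOrderOf y : ℝ) ≤ Λ ^ (1 / 4 : ℝ) → t = y) ∧
      ∀ z, dist z y ≤ 1 / Λ → (Λ ^ (K + 1))⁻¹ < dist z t → z ∈ MESM.A (K + 1) Λ y := by
  have hΛ0 : 0 < Λ := by linarith
  have hs0 : 0 < Λ ^ (1 / 4 : ℝ) := Real.rpow_pos_of_pos hΛ0 _
  have hs4 : (Λ ^ (1 / 4 : ℝ)) ^ 4 = Λ := by
    rw [← Real.rpow_natCast, ← Real.rpow_mul hΛ0.le]
    norm_num
  have hs2 : 2 < Λ ^ (1 / 4 : ℝ) := by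
    by_contra h
    push Not at h
    have h3 : (Λ ^ (1 / 4 : ℝ)) ^ 4 ≤ 2 ^ 4 := by gcongr
    rw [hs4] at h3
    norm_num at h3
    linarith
  have hgap : 4 / Λ < 1 / (Λ ^ (1 / 4 : ℝ)) ^ 2 := by
    have h1 : 4 / (Λ ^ (1 / 4 : ℝ)) ^ 4 < 1 / (Λ ^ (1 / 4 : ℝ)) ^ 2 := by
      rw [div_lt_div_iff₀ (by positivity) (by positivity)]
      have : (2 : ℝ) ^ 2 < (Λ ^ (1 / 4 : ℝ)) ^ 2 := by gcongr
      nlinarith [pow_pos hs0 2]
    rwa [hs4] at h1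
  have hK : (Λ ^ (K + 1))⁻¹ ≤ 1 / Λ := by
    rw [one_div]
    apply inv_anti₀ hΛ0
    exact le_self_pow₀ (by linarith) (by omega)
  by_cases hex : ∃ t : T, 0 < addOrderOf t ∧ (addOrderOf t : ℝ) ≤ Λ ^ (1 / 4 : ℝ) ∧ dist y t ≤ 2 / Λ
  · have hch : ∃ t : T, 0 < addOrderOf t ∧ (addOrderOf t : ℝ) ≤ Λ ^ (1 / 4 : ℝ) ∧
        dist y t ≤ 2 / Λ ∧ (0 < addOrderOf y → (addOrderOf y : ℝ) ≤ Λ ^ (1 / 4 : ℝ) → t = y) := by
      by_cases hy : 0 < addOrderOf y ∧ (addOrderOf y : ℝ) ≤ Λ ^ (1 / 4 : ℝ)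
      · exact ⟨y, hy.1, hy.2, by rw [dist_self]; positivity, fun _ _ => rfl⟩
      · obtain ⟨t, ht1, ht2, ht3⟩ := hex
        exact ⟨t, ht1, ht2, ht3, fun h1 h2 => absurd ⟨h1, h2⟩ hy⟩
    obtain ⟨t, ht1, ht2, ht3, ht4⟩ := hch
    refine ⟨t, ht1, ht2, ht4, fun z hz1 hz2 => ⟨hz1, fun t' ht1' ht2' => ?_⟩⟩
    by_cases htt : t' = t
    · rw [htt]; exact hz2
    · have h5 := FNLM.sep hs0 t t' ht1 ht2 ht1' ht2' (Ne.symm htt)
      have h6 : dist t t' ≤ dist z t + dist z t' := dist_triangle_left _ _ _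
      have h7 : dist z t ≤ dist z y + dist y t := dist_triangle _ _ _
      have h8 : 4 / Λ = 1 / Λ + 2 / Λ + 1 / Λ := by ring
      linarith
  · push Not at hex
    refine ⟨0, by rw [addOrderOf_zero]; norm_num, by rw [addOrderOf_zero]; norm_num; linarith,
      fun h1 h2 => ?_, fun z hz1 _ => ⟨hz1, fun t' ht1' ht2' => ?_⟩⟩
    · have := hex y h1 h2
      rw [dist_self] at this
      have h3 : 0 < 2 / Λ := by positivity
      linarith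
    · have h5 := hex t' ht1' ht2'
      have h6 : dist y t' ≤ dist z y + dist z t' := dist_triangle_left _ _ _
      have h8 : 2 / Λ = 1 / Λ + 1 / Λ := by ring
      linarith

end PTWM

open Pool.Agent.Lib.MP_715eb0_an.AS in
theorem specPTW (hTIL : SpecTIL) : SpecPTW := by
  intro ε K hε
  obtain ⟨C, Λ₁, h1, hM⟩ := hTIL ε (K + 1) hε
  refine ⟨C, max Λ₁ 17, lt_of_lt_of_le h1 (le_max_left _ _), fun Λ hΛ y => ?_⟩
  have hΛ1 : Λ₁ ≤ Λ := (le_max_left _ _).trans hΛ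
  have hΛ17 : (17 : ℝ) ≤ Λ := (le_max_right _ _).trans hΛ
  obtain ⟨t, ht0, hts, hty, hz⟩ := PTWM.choice (K := K) hΛ17 y
  refine ⟨t, ht0, hts, hty, fun x n hn => ?_⟩
  obtain ⟨x', rfl⟩ := QuotientAddGroup.mk_surjective x
  obtain ⟨y', rfl⟩ := QuotientAddGroup.mk_surjective y
  refine le_trans ?_ (hM Λ hΛ1 n hn x' y')
  have hfin : ({p : ℕ × ℕ | p.1 < n ∧ p.2 < n ∧ (∃ k : ℤ, |(V p : ℝ) * x' - y' - k| ≤ 1 / Λ) ∧
      ∀ (D : ℕ) (b : ℤ), 1 ≤ D → (D : ℝ) ≤ Λ ^ (1 / 4 : ℝ) →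
        (Λ ^ (K + 1))⁻¹ < |(V p : ℝ) * x' - b / D|}).Finite := by
    refine ((Finset.range n ×ˢ Finset.range n).finite_toSet).subset ?_
    intro p hp
    rw [Finset.mem_coe, Finset.mem_product, Finset.mem_range, Finset.mem_range]
    exact ⟨hp.1, hp.2.1⟩
  refine Nat.cast_le.2 (Set.ncard_le_ncard ?_ hfin)
  rintro p ⟨hp1, hp2, hz1, hz2⟩
  rw [Metric.mem_closedBall] at hz1 hz2
  rw [not_le] at hz2
  have hA : V p • ((x' : ℝ) : T) ∈ MESM.A (K + 1) Λ ((y' : ℝ) : T) := by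
    refine hz _ hz1 (lt_of_le_of_lt ?_ hz2)
    apply inv_anti₀ (by positivity)
    exact pow_le_pow_right₀ (by linarith) (by omega)
  exact ⟨hp1, hp2, MESM.near hA.1, fun D b hD hDΛ => MESM.far hA hD hDΛ⟩

end Pool.Agent.Lib.MP_715eb0_an.AW
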