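import Pool.Agent.Lib.MP_715eb0_an.AW.Spec

/-!
# Module TIL: all squares of times of side at least `C log Λ` (tiling, as in `SW/CNW.lean`)
-/

set_option autoImplicit false

open MeasureTheory
open Pool.Agent.Lib.MP_715eb0_an.NC

namespace Pool.Agent.Lib.MP_715eb0_an.AW

namespace TILM

open Finset in
lemma cover (n B : ℕ) (hB : 0 < B) (good : ℕ × ℕ → Prop) [DecidablePred good] (t : ℝ)
    (h : ∀ u v : ℕ, ((((range B ×ˢ range B).filter
      fun w => good (u * B + w.1, v * B + w.2)).card : ℕ) : ℝ) ≤ t) :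
    ((((range n ×ˢ range n).filter good).card : ℕ) : ℝ) ≤ ((n / B + 1 : ℕ) : ℝ) ^ 2 * t := by
  set S := (range n ×ˢ range n).filter good with hS
  set Q := range (n / B + 1) ×ˢ range (n / B + 1) with hQ
  have hmaps : ∀ p ∈ S, (p.1 / B, p.2 / B) ∈ Q := by
    intro p hp
    rw [hS, mem_filter, mem_product, mem_range, mem_range] at hp
    rw [hQ, mem_product, mem_range, mem_range]
    exact ⟨Nat.lt_succ_of_le (Nat.div_le_div_right hp.1.1.le),
      Nat.lt_succ_of_le (Nat.div_le_div_right hp.1.2.le)⟩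
  have hsum : S.card = ∑ b ∈ Q, (S.filter fun p => (p.1 / B, p.2 / B) = b).card :=
    card_eq_sum_card_fiberwise hmaps
  have hfib : ∀ b ∈ Q, (((S.filter fun p => (p.1 / B, p.2 / B) = b).card : ℕ) : ℝ) ≤ t := by
    rintro ⟨u, v⟩ _
    refine le_trans ?_ (h u v)
    have h1 : (S.filter fun p => (p.1 / B, p.2 / B) = (u, v)).card ≤
        ((range B ×ˢ range B).filter fun w => good (u * B + w.1, v * B + w.2)).card := by
      refine card_le_card_of_injOn (fun p => (p.1 % B, p.2 % B)) ?_ ?_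
      · intro p hp
        have hp' := (mem_filter.mp (mem_coe.mp hp))
        obtain ⟨hp1, hp2⟩ := hp'
        rw [hS, mem_filter] at hp1
        rw [Prod.mk.injEq] at hp2
        rw [mem_coe, mem_filter, mem_product, mem_range, mem_range]
        refine ⟨⟨Nat.mod_lt _ hB, Nat.mod_lt _ hB⟩, ?_⟩
        have e1 : u * B + p.1 % B = p.1 := by rw [← hp2.1]; exact Nat.div_add_mod' _ _
        have e2 : v * B + p.2 % B = p.2 := by rw [← hp2.2]; exact Nat.div_add_mod' _ _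
        show good (u * B + p.1 % B, v * B + p.2 % B)
        rw [e1, e2]
        exact hp1.2
      · intro p hp p' hp' he
        have hq := (mem_filter.mp (mem_coe.mp hp)).2
        have hq' := (mem_filter.mp (mem_coe.mp hp')).2
        rw [Prod.mk.injEq] at hq hq'
        have he' : (p.1 % B, p.2 % B) = (p'.1 % B, p'.2 % B) := he
        rw [Prod.mk.injEq] at he'
        apply Prod.ext
        · rw [← Nat.div_add_mod' p.1 B, ← Nat.div_add_mod' p'.1 B, hq.1, hq'.1, he'.1]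
        · rw [← Nat.div_add_mod' p.2 B, ← Nat.div_add_mod' p'.2 B, hq.2, hq'.2, he'.2]
    exact_mod_cast h1
  have hs2 : (S.card : ℝ) = ∑ b ∈ Q, (((S.filter fun p => (p.1 / B, p.2 / B) = b).card : ℕ) : ℝ) := by
    exact_mod_cast hsum
  rw [hs2]
  refine (sum_le_sum hfib).trans (le_of_eq ?_)
  rw [sum_const, nsmul_eq_mul, hQ, card_product, card_range]
  push_cast
  ring

lemma V_add (B u v : ℕ) (w : ℕ × ℕ) : V (u * B + w.1, v * B + w.2) = V w * V (u * B, v * B) := by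
  unfold V
  rw [pow_add, pow_add]
  ring

/-- the condition on the time `p` -/
def Gd (Λ : ℝ) (K : ℕ) (y x : ℝ) (p : ℕ × ℕ) : Prop :=
  (∃ k : ℤ, |(V p : ℝ) * x - y - k| ≤ 1 / Λ) ∧
    ∀ (D : ℕ) (b : ℤ), 1 ≤ D → (D : ℝ) ≤ Λ ^ (1 / 4 : ℝ) → (Λ ^ K)⁻¹ < |(V p : ℝ) * x - b / D|

open Classical in
lemma ncard_eq (Λ : ℝ) (K : ℕ) (y x : ℝ) (m : ℕ) :
    Set.ncard {p : ℕ × ℕ | p.1 < m ∧ p.2 < m ∧ Gd Λ K y x p} =
      ((Finset.range m ×ˢ Finset.range m).filter (Gd Λ K y x)).card := by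
  rw [← Set.ncard_coe_finset]
  congr 1
  ext p
  rw [Set.mem_ofPred_eq, Finset.mem_coe, Finset.mem_filter, Finset.mem_product, Finset.mem_range,
    Finset.mem_range, and_assoc]

end TILM

open TILM in
theorem specTIL (hCNB : SpecCNB) : SpecTIL := by
  classical
  intro ε K hε
  obtain ⟨C, Λ₀, h1, hc⟩ := hCNB (ε / 4) K (by linarith)
  refine ⟨C, Λ₀, h1, fun Λ hΛ n hn x y => ?_⟩
  obtain ⟨B, hB1, hBC, hcn⟩ := hc Λ hΛ
  have hBn : (B : ℝ) ≤ n := hBC.trans hn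
  show ((Set.ncard {p : ℕ × ℕ | p.1 < n ∧ p.2 < n ∧ Gd Λ K y x p} : ℕ) : ℝ) ≤ ε * (n : ℝ) ^ 2
  rw [ncard_eq]
  have hblock : ∀ u v : ℕ, ((((Finset.range B ×ˢ Finset.range B).filter
      fun w => Gd Λ K y x (u * B + w.1, v * B + w.2)).card : ℕ) : ℝ) ≤ ε / 4 * (B : ℝ) ^ 2 := by
    intro u v
    have h2 : ((Set.ncard {p : ℕ × ℕ | p.1 < B ∧ p.2 < B ∧
        Gd Λ K y ((V (u * B, v * B) : ℝ) * x) p} : ℕ) : ℝ) ≤ ε / 4 * (B : ℝ) ^ 2 :=
      hcn ((V (u * B, v * B) : ℝ) * x) y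
    rw [ncard_eq] at h2
    refine le_trans (le_of_eq ?_) h2
    congr 2
    refine Finset.filter_congr fun w _ => ?_
    have e : (V (u * B + w.1, v * B + w.2) : ℝ) * x = (V w : ℝ) * ((V (u * B, v * B) : ℝ) * x) := by
      rw [V_add]
      push_cast
      ring
    unfold Gd
    rw [e]
  have hmain := cover n B hB1 (Gd Λ K y x) (ε / 4 * (B : ℝ) ^ 2) hblock
  refine hmain.trans ?_
  have h2 : ((n / B + 1 : ℕ) : ℝ) * B ≤ 2 * n := by
    have h3 : (n / B + 1) * B ≤ n + B := by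
      rw [add_mul, one_mul]
      exact Nat.add_le_add_right (Nat.div_mul_le_self n B) B
    have h4 : ((n / B + 1 : ℕ) : ℝ) * B ≤ n + B := by exact_mod_cast h3
    linarith
  have h3 : (((n / B + 1 : ℕ) : ℝ) * B) ^ 2 ≤ (2 * (n : ℝ)) ^ 2 :=
    pow_le_pow_left₀ (by positivity) h2 2
  calc ((n / B + 1 : ℕ) : ℝ) ^ 2 * (ε / 4 * (B : ℝ) ^ 2)
      = ε / 4 * (((n / B + 1 : ℕ) : ℝ) * B) ^ 2 := by ring
    _ ≤ ε / 4 * (2 * (n : ℝ)) ^ 2 := mul_le_mul_of_nonneg_left h3 (by linarith)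
    _ = ε * (n : ℝ) ^ 2 := by ring

end Pool.Agent.Lib.MP_715eb0_an.AW
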