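import Pool.Agent.Lib.MP_715eb0_an.AS.Final
import Pool.Agent.Lib.MP_715eb0_an.AW.CNB
import Pool.Agent.Lib.MP_715eb0_an.AW.TIL
import Pool.Agent.Lib.MP_715eb0_an.AW.PTW
import Pool.Agent.Lib.MP_715eb0_an.AW.AVM

/-!
# MP_715eb0_an: concentration at all scales, for every orbit, in logarithmic time
-/

namespace Pool.Agent.Lib.MP_715eb0_an.AW

/-- Every orbit and every invariant measure. -/
theorem main : SpecAVM :=
  specAVM (specPTW (specTIL (specCNB (AS.specEXS
    (NC.specVAN (NC.specVAA Pool.Agent.Lib.MP_d0e829_nt.SS.sub))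
    (AS.specBUR NC.specPIG NC.specRDU) AS.specALI))))

end Pool.Agent.Lib.MP_715eb0_an.AW
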