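import Pool.Agent.Lib.MP_715eb0_an.AS.Spec

/-!
# MP_715eb0_an: concentration at all scales, for every orbit, in logarithmic time (specifications)

THEOREM (strengthens `AS.SpecFNL`). For all `ε > 0` and `K` there are `C`, `Λ₀` such that for all
`Λ ≥ Λ₀` and all `y` in `ℝ/ℤ` there is a point `t` of finite order `≤ Λ^(1/4)` (`t = y` if `y` has such
an order) such that for EVERY point `x` of `ℝ/ℤ` and every `n ≥ C log Λ` at most `ε n²` of the points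
`2^i 3^j x`, `i, j < n`, are in `B(y, 1/Λ) \ B(t, Λ^(-K))`; hence `μ (B(y, 1/Λ) \ B(t, Λ^(-K))) ≤ ε`
for every invariant probability measure `μ`.

All modules are independent: file `Pool/Agent/Lib/MP_715eb0_an/AW/XXX.lean`, import
`Pool.Agent.Lib.MP_715eb0_an.AW.Spec` (and the proved files `AS/CNS.lean`, `AS/MES.lean`,
`AS/FNL.lean`, `NC/CNT.lean` for their auxiliary lemmas), namespace
`Pool.Agent.Lib.MP_715eb0_an.AW`, theorem `specXXX (hYYY : SpecYYY) .. : SpecXXX` with the hypotheses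
in the order of USES, own lemmas in a namespace `XXXM`.
-/

set_option autoImplicit false

open MeasureTheory
open Pool.Agent.Lib.MP_715eb0_an.NC

namespace Pool.Agent.Lib.MP_715eb0_an.AW

/-- CNB (130 lines). USES `AS.SpecEXS`. `AS.SpecCNS` with a bound for `n`.
PROOF. Copy `specCNS` of `AS/CNS.lean`: there `n = A * L`, `L = ⌊s / log 2⌋₊ + 1`, `s = log Λ ≥ 2 log 2`,
so `L ≤ s / log 2 + 1 ≤ 3 s` and `n ≤ 3 A s`: `C = 3 A`. -/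
def SpecCNB : Prop :=
  ∀ (ε : ℝ) (K : ℕ), 0 < ε → ∃ (C : ℕ) (Λ₀ : ℝ), 1 < Λ₀ ∧ ∀ Λ : ℝ, Λ₀ ≤ Λ → ∃ n : ℕ, 1 ≤ n ∧
    (n : ℝ) ≤ C * Real.log Λ ∧ ∀ x y : ℝ,
      ((Set.ncard {p : ℕ × ℕ | p.1 < n ∧ p.2 < n ∧ (∃ k : ℤ, |(V p : ℝ) * x - y - k| ≤ 1 / Λ) ∧
        ∀ (D : ℕ) (b : ℤ), 1 ≤ D → (D : ℝ) ≤ Λ ^ (1 / 4 : ℝ) →
          (Λ ^ K)⁻¹ < |(V p : ℝ) * x - b / D|} : ℕ) : ℝ) ≤ ε * (n : ℝ) ^ 2

/-- TIL (130 lines). USES CNB. All squares of times of side `n ≥ C log Λ`.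
PROOF. CNB for `ε / 4`; call its side `n₀ ≤ C log Λ ≤ n`. Write `p = (u n₀, v n₀) + p'` with
`p' ∈ [0, n₀)²`, `u = p.1 / n₀ ≤ n / n₀`, `v = p.2 / n₀ ≤ n / n₀`; `V p * x = V p' * (V (u n₀, v n₀) * x)`.
For each of the at most `(n / n₀ + 1)²` pairs `(u, v)` CNB for the point `V (u n₀, v n₀) * x` gives at
most `(ε/4) n₀²` points. Total `≤ (n / n₀ + 1)² n₀² ε / 4 ≤ (n + n₀)² ε / 4 ≤ ε n²`. (The same tiling
was done in `SW/CNW.lean`.) -/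
def SpecTIL : Prop :=
  ∀ (ε : ℝ) (K : ℕ), 0 < ε → ∃ (C : ℕ) (Λ₀ : ℝ), 1 < Λ₀ ∧ ∀ Λ : ℝ, Λ₀ ≤ Λ →
    ∀ n : ℕ, C * Real.log Λ ≤ n → ∀ x y : ℝ,
      ((Set.ncard {p : ℕ × ℕ | p.1 < n ∧ p.2 < n ∧ (∃ k : ℤ, |(V p : ℝ) * x - y - k| ≤ 1 / Λ) ∧
        ∀ (D : ℕ) (b : ℤ), 1 ≤ D → (D : ℝ) ≤ Λ ^ (1 / 4 : ℝ) →
          (Λ ^ K)⁻¹ < |(V p : ℝ) * x - b / D|} : ℕ) : ℝ) ≤ ε * (n : ℝ) ^ 2

/-- PTW (170 lines). USES TIL. The theorem for every point `x`.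
PROOF. The choice of `t` and the comparison of the sets are those of `AS/FNL.lean` (for a point `z` in
`B(y, 1/Λ) \ B(t, Λ^(-K))`: `dist z t' > Λ^(-K)` for every `t'` of order `≤ Λ^(1/4)`), the passage from
points of `T` to real numbers is that of `AS/MES.lean`: for `z = V p • x` with `x` the class of `x'` and
`y` the class of `y'`, `|V(p) x' - y' - k| ≤ 1/Λ` for some integer `k`, and `Λ^(-K) < |V(p) x' - b/D|`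
for all `b / D` with `1 ≤ D ≤ Λ^(1/4)` (the order of the class of `b / D` divides `D`). Then TIL. -/
def SpecPTW : Prop :=
  ∀ (ε : ℝ) (K : ℕ), 0 < ε → ∃ (C : ℕ) (Λ₀ : ℝ), 1 < Λ₀ ∧ ∀ Λ : ℝ, Λ₀ ≤ Λ → ∀ y : T, ∃ t : T,
    0 < addOrderOf t ∧ (addOrderOf t : ℝ) ≤ Λ ^ (1 / 4 : ℝ) ∧
    (0 < addOrderOf y → (addOrderOf y : ℝ) ≤ Λ ^ (1 / 4 : ℝ) → t = y) ∧
    ∀ (x : T) (n : ℕ), C * Real.log Λ ≤ n →
      (Set.ncard {p : ℕ × ℕ | p.1 < n ∧ p.2 < n ∧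
        (2 ^ p.1 * 3 ^ p.2) • x ∈ Metric.closedBall y (1 / Λ) \ Metric.closedBall t (Λ ^ K)⁻¹} : ℝ) ≤
        ε * (n : ℝ) ^ 2

/-- AVM (120 lines). USES PTW. The final form, with the measures.
PROOF. The same `C`, `Λ₀`, `t`. Let `A = closedBall y (1/Λ) \ closedBall t (Λ^K)⁻¹` (measurable),
`n = ⌈C log Λ⌉₊ + 1`. `μ` is invariant under `z ↦ V(p) • z`, so
`n² μ(A) = Σ_{p ∈ [0,n)²} μ {z | V(p) • z ∈ A} = ∫ #{p ∈ [0,n)² : V(p) • z ∈ A} dμ(z) ≤ ε n²`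
(copy from `AS/MES.lean`). -/
def SpecAVM : Prop :=
  ∀ (ε : ℝ) (K : ℕ), 0 < ε → ∃ (C : ℕ) (Λ₀ : ℝ), 1 < Λ₀ ∧ ∀ Λ : ℝ, Λ₀ ≤ Λ → ∀ y : T, ∃ t : T,
    0 < addOrderOf t ∧ (addOrderOf t : ℝ) ≤ Λ ^ (1 / 4 : ℝ) ∧
    (0 < addOrderOf y → (addOrderOf y : ℝ) ≤ Λ ^ (1 / 4 : ℝ) → t = y) ∧
    (∀ (x : T) (n : ℕ), C * Real.log Λ ≤ n →
      (Set.ncard {p : ℕ × ℕ | p.1 < n ∧ p.2 < n ∧
        (2 ^ p.1 * 3 ^ p.2) • x ∈ Metric.closedBall y (1 / Λ) \ Metric.closedBall t (Λ ^ K)⁻¹} : ℝ) ≤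
        ε * (n : ℝ) ^ 2) ∧
    ∀ μ : Measure T, IsProbabilityMeasure μ → Measure.map (fun x : T => (2 : ℕ) • x) μ = μ →
      Measure.map (fun x : T => (3 : ℕ) • x) μ = μ →
      μ (Metric.closedBall y (1 / Λ) \ Metric.closedBall t (Λ ^ K)⁻¹) ≤ ENNReal.ofReal ε

end Pool.Agent.Lib.MP_715eb0_an.AW
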